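import Pool.Agent.H98.ARW.Defs

namespace Pool.Agent.H98.ARW

open Finset Filter
open scoped NNReal

variable {V : Type} [Fintype V] [DecidableEq V]

theorem addAt_apply (σ : Conf V) (z : Option V) (w : V) :
    addAt σ z w = if z = some w then (σ w).add else σ w := by
  cases z with
  | none => simp [addAt]
  | some v =>
    unfold addAt
    by_cases h : w = v
    · subst h; simp
    · have h' : v ≠ w := fun e => h e.symm
      simp [Function.update_of_ne h, h']

theorem remAt_apply (σ : Conf V) (v w : V) :
    remAt σ v w = if v = w then (σ w).rem else σ w := by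
  unfold remAt
  by_cases h : w = v
  · subst h; simp
  · have h' : v ≠ w := fun e => h e.symm
    simp [Function.update_of_ne h, h']

theorem slpAt_apply (σ : Conf V) (v w : V) :
    slpAt σ v w = if v = w then (σ w).slp else σ w := by
  unfold slpAt
  by_cases h : w = v
  · subst h; simp
  · have h' : v ≠ w := fun e => h e.symm
    simp [Function.update_of_ne h, h']

theorem act_pos_iff (s : Site) : 0 < s.act ↔ ∃ k, s = Site.active (k + 1) := by
  cases s with
  | active k =>
    constructor
    · intro h
      have h' : 0 < k := h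
      exact ⟨k - 1, by congr 1; omega⟩
    · rintro ⟨j, hj⟩; rw [hj]; simp [Site.act]
  | asleep => simp [Site.act]

theorem add_rem (s : Site) (h : 0 < s.act) : s.rem.add = s.add.rem := by
  obtain ⟨k, rfl⟩ := (act_pos_iff s).1 h
  simp [Site.add, Site.rem]

theorem slp_add (s : Site) (h : 0 < s.act) : s.slp.add = s.add := by
  obtain ⟨k, rfl⟩ := (act_pos_iff s).1 h
  simp only [Site.slp]
  split_ifs with h1
  · have : k = 0 := by omega
    subst this
    simp [Site.add]
  · rfl

theorem add_slp (s : Site) (h : 0 < s.act) : s.add.slp = s.add := by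
  obtain ⟨k, rfl⟩ := (act_pos_iff s).1 h
  simp [Site.slp, Site.add]

/-- the two orders of adding commute -/
theorem addAt_addAt (σ : Conf V) (z z' : Option V) :
    addAt (addAt σ z) z' = addAt (addAt σ z') z := by
  funext w
  simp only [addAt_apply]
  split_ifs <;> rfl

theorem slpAt_slpAt (σ : Conf V) (u v : V) : slpAt (slpAt σ u) v = slpAt (slpAt σ v) u := by
  funext w
  simp only [slpAt_apply]
  split_ifs <;> rfl

/-- adding a particle anywhere commutes with a jump from an active site -/
theorem addAt_remAt (σ : Conf V) (u : V) (z : Option V) (h : 0 < (σ u).act) :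
    addAt (remAt σ u) z = remAt (addAt σ z) u := by
  funext w
  simp only [addAt_apply, remAt_apply]
  by_cases h1 : z = some w
  · by_cases h2 : u = w
    · subst h2; simp only [h1, if_true]; exact add_rem _ h
    · simp [h1, h2]
  · simp [h1]

/-- adding a particle anywhere after a sleep attempt at an active site `u`: adding at `u` cancels
the attempt -/
theorem addAt_slpAt (σ : Conf V) (u : V) (z : Option V) (h : 0 < (σ u).act) :
    addAt (slpAt σ u) z = slpAt (addAt σ z) u := by
  funext w
  simp only [addAt_apply, slpAt_apply]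
  by_cases h1 : z = some w
  · by_cases h2 : u = w
    · subst h2; simp only [h1, if_true]; rw [slp_add _ h, add_slp _ h]
    · simp [h1, h2]
  · simp [h1]

theorem remAt_slpAt (σ : Conf V) {u v : V} (h : u ≠ v) :
    remAt (slpAt σ u) v = slpAt (remAt σ v) u := by
  funext w
  simp only [remAt_apply, slpAt_apply]
  by_cases h1 : v = w
  · have h2 : u ≠ w := fun e => h (e.trans h1.symm)
    simp [h1, h2]
  · simp [h1]

theorem remAt_remAt (σ : Conf V) (u v : V) : remAt (remAt σ u) v = remAt (remAt σ v) u := by
  funext w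
  simp only [remAt_apply]
  split_ifs <;> rfl

theorem act_slpAt_ne (σ : Conf V) {u v : V} (h : u ≠ v) : (slpAt σ u v) = σ v := by
  simp [slpAt_apply, h]

theorem act_remAt_ne (σ : Conf V) {u v : V} (h : u ≠ v) : (remAt σ u v) = σ v := by
  simp [remAt_apply, h]

theorem act_add (s : Site) : 0 < s.add.act := by
  cases s <;> simp [Site.add, Site.act]

theorem act_addAt (σ : Conf V) (z : Option V) {v : V} (h : 0 < (σ v).act) :
    0 < (addAt σ z v).act := by
  rw [addAt_apply]
  split_ifs
  · exact act_add _
  · exact h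

theorem act_move (σ : Conf V) {u v : V} (z : Option V) (huv : u ≠ v) (h : 0 < (σ v).act) :
    0 < (addAt (remAt σ u) z v).act := by
  apply act_addAt
  rw [act_remAt_ne _ huv]; exact h

/-! ### avg -/

omit [DecidableEq V] in
theorem avg_congr (P : Ker V) (v : V) {F G : Option V → ℝ}
    (h : ∀ z, F z = G z) : avg P v F = avg P v G := by
  have : F = G := funext h
  rw [this]

omit [DecidableEq V] in
theorem avg_mono (P : Ker V) (v : V) {F G : Option V → ℝ}
    (h : ∀ z, F z ≤ G z) : avg P v F ≤ avg P v G :=
  Finset.sum_le_sum fun z _ => mul_le_mul_of_nonneg_left (h z) (P.nonneg v z)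

omit [DecidableEq V] in
theorem avg_mul (P : Ker V) (v : V) (c : ℝ) (F : Option V → ℝ) :
    avg P v (fun z => c * F z) = c * avg P v F := by
  unfold avg
  rw [Finset.mul_sum]
  exact Finset.sum_congr rfl fun z _ => by ring

omit [DecidableEq V] in
theorem avg_add (P : Ker V) (v : V) (F G : Option V → ℝ) :
    avg P v (fun z => F z + G z) = avg P v F + avg P v G := by
  unfold avg
  rw [← Finset.sum_add_distrib]
  exact Finset.sum_congr rfl fun z _ => by ring

omit [DecidableEq V] in
theorem avg_sub (P : Ker V) (v : V) (F G : Option V → ℝ) :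
    avg P v (fun z => F z - G z) = avg P v F - avg P v G := by
  unfold avg
  rw [← Finset.sum_sub_distrib]
  exact Finset.sum_congr rfl fun z _ => by ring

omit [DecidableEq V] in
theorem avg_const (P : Ker V) (v : V) (c : ℝ) :
    avg P v (fun _ => c) = c := by
  unfold avg
  rw [← Finset.sum_mul, P.sum_one, one_mul]

omit [DecidableEq V] in
theorem avg_comm (P Q : Ker V) (u v : V) (F : Option V → Option V → ℝ) :
    avg P u (fun z => avg Q v (fun z' => F z z')) =
      avg Q v (fun z' => avg P u (fun z => F z z')) := by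
  unfold avg
  simp only [Finset.mul_sum]
  rw [Finset.sum_comm]
  apply Finset.sum_congr rfl; intro x _
  apply Finset.sum_congr rfl; intro y _
  ring

/-! ### top -/

theorem top_congr (P : Ker V) (lam : V → ℝ≥0) (u : V) (f g : Conf V → ℝ)
    (σ τ : Conf V) (h1 : f (slpAt σ u) = g (slpAt τ u))
    (h2 : ∀ z, f (addAt (remAt σ u) z) = g (addAt (remAt τ u) z)) :
    top P lam u f σ = top P lam u g τ := by
  unfold top
  rw [h1, avg_congr P u h2]

theorem tComm : TaskComm := by
  intro V _ _ P lam u v f σ huv hu hv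
  obtain ⟨a, ha⟩ : ∃ a : ℝ, a = (lam u : ℝ) / (1 + lam u) := ⟨_, rfl⟩
  obtain ⟨b, hb⟩ : ∃ b : ℝ, b = 1 / (1 + (lam u : ℝ)) := ⟨_, rfl⟩
  obtain ⟨c, hc⟩ : ∃ c : ℝ, c = (lam v : ℝ) / (1 + lam v) := ⟨_, rfl⟩
  obtain ⟨d, hd⟩ : ∃ d : ℝ, d = 1 / (1 + (lam v : ℝ)) := ⟨_, rfl⟩
  have h1 : top P lam u (top P lam v f) σ =
      a * (c * f (slpAt (slpAt σ u) v)) +
      a * (d * avg P v (fun z' => f (addAt (remAt (slpAt σ u) v) z'))) +
      b * (c * avg P u (fun z => f (slpAt (addAt (remAt σ u) z) v))) +
      b * (d * avg P u (fun z => avg P v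
        (fun z' => f (addAt (remAt (addAt (remAt σ u) z) v) z')))) := by
    simp only [top, avg_add, avg_mul, ← ha, ← hb, ← hc, ← hd]
    ring
  have h2 : top P lam v (top P lam u f) σ =
      c * (a * f (slpAt (slpAt σ v) u)) +
      c * (b * avg P u (fun z' => f (addAt (remAt (slpAt σ v) u) z'))) +
      d * (a * avg P v (fun z => f (slpAt (addAt (remAt σ v) z) u))) +
      d * (b * avg P v (fun z => avg P u
        (fun z' => f (addAt (remAt (addAt (remAt σ v) z) u) z')))) := by
    simp only [top, avg_add, avg_mul, ← ha, ← hb, ← hc, ← hd]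
    ring
  rw [h1, h2, slpAt_slpAt σ u v]
  have e1 : ∀ z', addAt (remAt (slpAt σ u) v) z' = slpAt (addAt (remAt σ v) z') u := by
    intro z'
    rw [remAt_slpAt σ huv, addAt_slpAt]
    rw [act_remAt_ne _ huv.symm]; exact hu
  have e2 : ∀ z', addAt (remAt (slpAt σ v) u) z' = slpAt (addAt (remAt σ u) z') v := by
    intro z'
    rw [remAt_slpAt σ huv.symm, addAt_slpAt]
    rw [act_remAt_ne _ huv]; exact hv
  have e3 : ∀ z z', addAt (remAt (addAt (remAt σ u) z) v) z' =
      addAt (remAt (addAt (remAt σ v) z') u) z := by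
    intro z z'
    rw [← addAt_remAt (remAt σ u) v z (by rw [act_remAt_ne _ huv]; exact hv),
      ← addAt_remAt (remAt σ v) u z' (by rw [act_remAt_ne _ huv.symm]; exact hu),
      remAt_remAt σ u v, addAt_addAt]
  simp only [e1, e2, e3]
  rw [avg_comm P P u v (fun z z' => f (addAt (remAt (addAt (remAt σ v) z') u) z))]
  ring

end Pool.Agent.H98.ARW
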