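import Mathlib

/-! Activated random walk with arbitrary jump kernels and site-dependent sleep rates: definitions.
Adapted from the library modules `H542ARW` (uniform jumps on a multigraph, constant sleep rate). -/

set_option autoImplicit false

namespace Pool.Agent.H98.ARW

open Finset
open scoped NNReal

/-- Content of a site: `active k` means `k` active particles (`active 0` is an empty site),
`asleep` means exactly one sleeping particle. -/
inductive Site : Type
  | active (k : ℕ) : Site
  | asleep : Site
deriving DecidableEq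

namespace Site

/-- number of active particles -/
def act : Site → ℕ
  | active k => k
  | asleep => 0

/-- number of particles -/
def num : Site → ℕ
  | active k => k
  | asleep => 1

/-- a particle arrives (and wakes up a sleeping particle) -/
def add : Site → Site
  | active k => active (k + 1)
  | asleep => active 2

/-- an active particle leaves -/
def rem : Site → Site
  | active k => active (k - 1)
  | asleep => asleep

/-- sleep attempt: has an effect only if there is exactly one active particle -/
def slp : Site → Site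
  | active k => if k = 1 then asleep else active k
  | asleep => asleep

end Site

/-- configurations -/
abbrev Conf (V : Type) := V → Site

/-- a jump kernel: a particle of the site `v` jumps to `z` with probability `p v z`;
`none` is the sink -/
structure Ker (V : Type) [Fintype V] where
  p : V → Option V → ℝ
  nonneg : ∀ v z, 0 ≤ p v z
  sum_one : ∀ v, ∑ z, p v z = 1

variable {V : Type} [Fintype V] [DecidableEq V]

/-- a particle is added at `z`; `none` is the sink, where the particle disappears -/
def addAt (σ : Conf V) (z : Option V) : Conf V :=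
  match z with
  | none => σ
  | some v => Function.update σ v (σ v).add

/-- an active particle leaves `v` -/
def remAt (σ : Conf V) (v : V) : Conf V := Function.update σ v (σ v).rem

/-- sleep attempt at `v` -/
def slpAt (σ : Conf V) (v : V) : Conf V := Function.update σ v (σ v).slp

/-- no active particle -/
def Stable (σ : Conf V) : Prop := ∀ v, (σ v).act = 0

instance (σ : Conf V) : Decidable (Stable σ) := by unfold Stable; infer_instance

/-- number of sleeping particles -/
def sleepers (σ : Conf V) : ℕ := (univ.filter fun v => σ v = Site.asleep).card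

/-- average of `F` at the end of a jump from `v` -/
noncomputable def avg (P : Ker V) (v : V) (F : Option V → ℝ) : ℝ := ∑ z, P.p v z * F z

/-- total rate of events: every active particle jumps at rate `1`, an active particle alone at
its site `v` falls asleep at rate `lam v` -/
noncomputable def rate (lam : V → ℝ≥0) (σ : Conf V) : ℝ :=
  ∑ v, ((σ v).act : ℝ) + ∑ v, (if σ v = Site.active 1 then (lam v : ℝ) else 0)

/-- Transition operator of the embedded jump chain of the process: `stepOp f σ` is the expected
value of `f` after the next event (jump of a particle from `v` to `z`: rate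
(number of active particles at `v`) times `p v z`; falling asleep of a lonely
active particle at `v`: rate `lam v`); stable configurations are absorbing. -/
noncomputable def stepOp (P : Ker V) (lam : V → ℝ≥0) (f : Conf V → ℝ) (σ : Conf V) : ℝ :=
  if Stable σ then f σ else
    (∑ v, ((σ v).act : ℝ) * ∑ z, P.p v z * f (addAt (remAt σ v) z)
      + ∑ v, (if σ v = Site.active 1 then lam v * f (Function.update σ v Site.asleep) else 0))
      / rate lam σ

/-- probability that the jump chain started at `η` has reached within `n` events a stable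
configuration satisfying `A` -/
noncomputable def probBy (P : Ker V) (lam : V → ℝ≥0) (A : Conf V → Prop)
    (n : ℕ) (η : Conf V) : ℝ :=
  by
    classical
    exact ((stepOp P lam)^[n] (fun σ => if Stable σ ∧ A σ then (1 : ℝ) else 0)) η

/-- probability that the process started at `η` ends in a stable configuration with at least `k`
sleeping particles: the limit (supremum) of the probabilities that this has happened within `n`
events -/
noncomputable def probGE (P : Ker V) (lam : V → ℝ≥0) (k : ℕ) (η : Conf V) : ℝ :=
  ⨆ n : ℕ, probBy P lam (fun σ => k ≤ sleepers σ) n η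

/-- from every site the sink is reached with positive probability -/
def ToSink (P : Ker V) : Prop :=
  ∀ v : V, Relation.ReflTransGen (fun a b : Option V => ∃ w : V, some w = a ∧ 0 < P.p w b)
    (some v) none

/-! ### Proof tools -/

/-- toppling operator at `v` (legal if `v` is active) -/
noncomputable def top (P : Ker V) (lam : V → ℝ≥0) (v : V) (f : Conf V → ℝ)
    (σ : Conf V) : ℝ :=
  (lam v : ℝ) / (1 + lam v) * f (slpAt σ v)
    + 1 / (1 + lam v) * avg P v (fun z => f (addAt (remAt σ v) z))

/-- total number of particles -/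
def total (σ : Conf V) : ℕ := ∑ v, (σ v).num

/-- Lyapunov function -/
noncomputable def Psi (t : Option V → ℝ) (σ : Conf V) : ℝ := ∑ v, ((σ v).num : ℝ) * t (some v)

/-- `t` is a Lyapunov weight -/
structure Lyap (P : Ker V) (t : Option V → ℝ) : Prop where
  none_eq : t none = 0
  one_le : ∀ v : V, 1 ≤ t (some v)
  drift : ∀ v : V, avg P v t ≤ t (some v) - 1

/-- a lower bound for all drifts -/
noncomputable def pp (lam : V → ℝ≥0) : ℝ := 1 / (1 + ∑ v, (lam v : ℝ))

omit [DecidableEq V] in
theorem pp_pos (lam : V → ℝ≥0) : 0 < pp lam := by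
  unfold pp
  have : (0 : ℝ) ≤ ∑ v, (lam v : ℝ) := sum_nonneg fun v _ => (lam v).2
  positivity

omit [DecidableEq V] in
theorem pp_le (lam : V → ℝ≥0) (u : V) : pp lam ≤ 1 / (1 + lam u) := by
  unfold pp
  apply one_div_le_one_div_of_le (by positivity)
  have := single_le_sum (f := fun v => (lam v : ℝ)) (fun v _ => (lam v).2) (mem_univ u)
  linarith

/-- existence of a Lyapunov weight -/
def TaskLyap : Prop := ∀ (V : Type) [Fintype V] [DecidableEq V]
  (P : Ker V), ToSink P → ∃ t : Option V → ℝ, Lyap P t

/-- abstract minimum principle -/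
def TaskMin : Prop := ∀ (X : Type) (S : X → Prop) (D Ψ : X → ℝ) (K p c0 : ℝ), 0 < p →
  (∀ x, S x → 0 ≤ Ψ x ∧ Ψ x ≤ K) → (∀ x, S x → -(c0 * Ψ x) ≤ D x) →
  (∀ x, S x → 0 ≤ D x ∨ ∃ A : (X → ℝ) → ℝ, (∀ f g, (∀ y, S y → f y ≤ g y) → A f ≤ A g) ∧
    (∀ (c : ℝ) f, A (fun y => c * f y) = c * A f) ∧ A D ≤ D x ∧ A Ψ ≤ Ψ x - p) →
  ∀ x, S x → 0 ≤ D x

/-- legal topplings at different sites commute -/
def TaskComm : Prop := ∀ (V : Type) [Fintype V] [DecidableEq V]
  (P : Ker V) (lam : V → ℝ≥0) (u v : V) (f : Conf V → ℝ) (σ : Conf V),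
  u ≠ v → 0 < (σ u).act → 0 < (σ v).act →
  top P lam u (top P lam v f) σ = top P lam v (top P lam u f) σ

/-- drift of the Lyapunov function, and the number of particles does not increase -/
def TaskDrift : Prop := ∀ (V : Type) [Fintype V] [DecidableEq V]
  (P : Ker V) (lam : V → ℝ≥0) (t : Option V → ℝ), Lyap P t →
  (∀ (u : V) (σ : Conf V), 0 < (σ u).act →
    top P lam u (Psi t) σ ≤ Psi t σ - 1 / (1 + lam u)) ∧
  (∀ (u : V) (σ : Conf V), total (slpAt σ u) ≤ total σ) ∧
  (∀ (u : V) (z : Option V) (σ : Conf V), 0 < (σ u).act → total (addAt (remAt σ u) z) ≤ total σ) ∧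
  (∀ σ : Conf V, 0 ≤ Psi t σ) ∧ (∀ σ : Conf V, ¬ Stable σ → 1 ≤ Psi t σ) ∧
  (∀ m : ℕ, ∃ K : ℝ, ∀ σ : Conf V, total σ ≤ m → Psi t σ ≤ K)

/-- value function (Bellman iteration); gives the abelian property -/
def TaskBellman : Prop := ∀ (V : Type) [Fintype V] [DecidableEq V]
  (P : Ker V) (lam : V → ℝ≥0) (t : Option V → ℝ), Lyap P t →
  ∀ (φ : Conf V → ℝ) (r : V → Conf V → ℝ) (B C : ℝ), 0 ≤ C →
  (∀ σ, 0 ≤ φ σ ∧ φ σ ≤ B) →
  (∀ v σ, 0 < (σ v).act → 0 ≤ r v σ ∧ r v σ ≤ C / (1 + lam v)) →
  (∀ u v σ, u ≠ v → 0 < (σ u).act → 0 < (σ v).act →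
    r u σ + top P lam u (r v) σ = r v σ + top P lam v (r u) σ) →
  ∃ Φ : Conf V → ℝ, (∀ σ, Stable σ → Φ σ = φ σ) ∧
    (∀ σ v, 0 < (σ v).act → Φ σ = r v σ + top P lam v Φ σ) ∧
    (∀ σ, 0 ≤ Φ σ ∧ Φ σ ≤ B + C * Psi t σ)

/-- `L` is an invariant of all legal topplings with boundary values `1_A` -/
structure IsVal {V : Type} [Fintype V] [DecidableEq V]
    (P : Ker V) (lam : V → ℝ≥0) (A : Conf V → Prop) (L : Conf V → ℝ) : Prop where
  stable_one : ∀ σ, Stable σ → A σ → L σ = 1
  stable_zero : ∀ σ, Stable σ → ¬ A σ → L σ = 0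
  inv : ∀ σ v, 0 < (σ v).act → L σ = top P lam v L σ
  nonneg : ∀ σ, 0 ≤ L σ
  le_one : ∀ σ, L σ ≤ 1

/-- waking up sleeping particles does not increase the final number of sleeping particles -/
def TaskWake : Prop := ∀ (V : Type) [Fintype V] [DecidableEq V]
  (P : Ker V) (lam : V → ℝ≥0) (t : Option V → ℝ), Lyap P t →
  ∀ (k : ℕ) (L : Conf V → ℝ), IsVal P lam (fun σ => k ≤ sleepers σ) L →
  ∀ σ σ' : Conf V, (∀ v, σ' v = σ v ∨ (σ v = Site.asleep ∧ σ' v = Site.active 1)) → L σ' ≤ L σ

/-- the jump chain computes `L` -/
def TaskJump : Prop := ∀ (V : Type) [Fintype V] [DecidableEq V]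
  (P : Ker V) (lam : V → ℝ≥0) (t : Option V → ℝ), Lyap P t →
  ∀ (A : Conf V → Prop) (L : Conf V → ℝ), IsVal P lam A L →
  ∀ η : Conf V, (∀ n, probBy P lam A n η ≤ L η) ∧
    Filter.Tendsto (fun n => probBy P lam A n η) Filter.atTop (nhds (L η))

end Pool.Agent.H98.ARW
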