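import Pool.Agent.H98.ARW.Comm

set_option linter.unusedSectionVars false

namespace Pool.Agent.H98.ARW

open Finset Filter
open scoped NNReal

variable {V : Type} [Fintype V] [DecidableEq V]

theorem num_slp (s : Site) : s.slp.num = s.num := by
  cases s with
  | active k =>
    simp only [Site.slp]
    split_ifs with h
    · simp [Site.num, h]
    · rfl
  | asleep => rfl

theorem num_add (s : Site) : s.add.num = s.num + 1 := by
  cases s <;> simp [Site.add, Site.num]

theorem num_rem (s : Site) (h : 0 < s.act) : s.rem.num + 1 = s.num := by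
  obtain ⟨k, rfl⟩ := (act_pos_iff s).1 h
  simp [Site.rem, Site.num]

theorem act_le_num (s : Site) : s.act ≤ s.num := by
  cases s <;> simp [Site.act, Site.num]

/-- weighted count with arbitrary weights -/
theorem Psi_slpAt (t : Option V → ℝ) (σ : Conf V) (u : V) : Psi t (slpAt σ u) = Psi t σ := by
  unfold Psi
  apply Finset.sum_congr rfl
  intro w _
  rw [slpAt_apply]
  split_ifs
  · rw [num_slp]
  · rfl

theorem Psi_addAt_some (t : Option V → ℝ) (σ : Conf V) (v : V) :
    Psi t (addAt σ (some v)) = Psi t σ + t (some v) := by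
  unfold Psi
  have h : ∀ w, ((addAt σ (some v) w).num : ℝ) * t (some w) =
      ((σ w).num : ℝ) * t (some w) + (if v = w then t (some w) else 0) := by
    intro w
    rw [addAt_apply]
    by_cases h : v = w
    · subst h; simp [num_add]; ring
    · have : ¬ (some v = some w) := fun e => h (Option.some.inj e)
      simp [h]
  simp only [h]
  rw [Finset.sum_add_distrib, Finset.sum_ite_eq]
  simp

theorem Psi_addAt (t : Option V → ℝ) (h0 : t none = 0) (σ : Conf V) (z : Option V) :
    Psi t (addAt σ z) = Psi t σ + t z := by
  cases z with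
  | none => rw [h0]; simp [addAt]
  | some v => exact Psi_addAt_some t σ v

theorem Psi_remAt (t : Option V → ℝ) (σ : Conf V) (u : V) (h : 0 < (σ u).act) :
    Psi t (remAt σ u) = Psi t σ - t (some u) := by
  unfold Psi
  have h : ∀ w, ((remAt σ u w).num : ℝ) * t (some w) =
      ((σ w).num : ℝ) * t (some w) - (if u = w then t (some w) else 0) := by
    intro w
    rw [remAt_apply]
    by_cases h1 : u = w
    · subst h1
      have := num_rem _ h
      have h2 : ((σ u).num : ℝ) = ((σ u).rem.num : ℝ) + 1 := by
        rw [← this]; push_cast; ring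
      simp only [if_true, h2]; ring
    · simp [h1]
  simp only [h]
  rw [Finset.sum_sub_distrib, Finset.sum_ite_eq]
  simp

theorem total_eq_Psi (σ : Conf V) :
    (total σ : ℝ) = Psi (fun z => if z = none then 0 else 1) σ := by
  unfold total Psi
  push_cast
  apply Finset.sum_congr rfl
  intro v _
  simp

theorem total_slpAt (σ : Conf V) (u : V) : total (slpAt σ u) = total σ := by
  have : (total (slpAt σ u) : ℝ) = total σ := by
    rw [total_eq_Psi, total_eq_Psi, Psi_slpAt]
  exact_mod_cast this

theorem total_move (σ : Conf V) (u : V) (z : Option V) (h : 0 < (σ u).act) :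
    total (addAt (remAt σ u) z) ≤ total σ := by
  have : (total (addAt (remAt σ u) z) : ℝ) ≤ total σ := by
    rw [total_eq_Psi, total_eq_Psi, Psi_addAt _ (by simp), Psi_remAt _ _ _ h]
    cases z <;> simp
  exact_mod_cast this

theorem lyap_nonneg {P : Ker V} {t : Option V → ℝ}
    (ht : Lyap P t) (z : Option V) : 0 ≤ t z := by
  cases z with
  | none => rw [ht.none_eq]
  | some v => linarith [ht.one_le v]

theorem tDrift : TaskDrift := by
  intro V _ _ P lam t ht
  refine ⟨?_, ?_, ?_, ?_, ?_, ?_⟩
  · intro u σ hu
    unfold top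
    rw [Psi_slpAt]
    have h1 : avg P u (fun z => Psi t (addAt (remAt σ u) z)) ≤ Psi t σ - 1 := by
      have h2 : ∀ z, Psi t (addAt (remAt σ u) z) = (Psi t σ - t (some u)) + t z := by
        intro z
        rw [Psi_addAt t ht.none_eq, Psi_remAt t _ _ hu]
      rw [avg_congr P u h2, avg_add, avg_const P u]
      have := ht.drift u
      linarith
    have hpos : 0 < 1 + (lam u : ℝ) := by positivity
    have h3 : (lam u : ℝ) / (1 + lam u) * Psi t σ + 1 / (1 + lam u) * (Psi t σ - 1) =
        Psi t σ - 1 / (1 + lam u) := by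
      field_simp
      ring
    rw [← h3]
    have : 0 ≤ 1 / (1 + (lam u : ℝ)) := by positivity
    have := mul_le_mul_of_nonneg_left h1 this
    linarith
  · intro u σ
    exact (total_slpAt σ u).le
  · intro u z σ hu
    exact total_move σ u z hu
  · intro σ
    unfold Psi
    exact Finset.sum_nonneg fun v _ => mul_nonneg (Nat.cast_nonneg _) (lyap_nonneg ht _)
  · intro σ hσ
    unfold Stable at hσ
    push Not at hσ
    obtain ⟨v, hv⟩ := hσ
    have hv' : 0 < (σ v).act := Nat.pos_of_ne_zero hv
    have h1 : (1 : ℝ) ≤ ((σ v).num : ℝ) * t (some v) := by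
      have h2 : (1 : ℝ) ≤ ((σ v).num : ℝ) := by
        exact_mod_cast le_trans hv' (act_le_num _)
      have h3 := ht.one_le v
      nlinarith
    unfold Psi
    calc (1 : ℝ) ≤ ((σ v).num : ℝ) * t (some v) := h1
      _ ≤ _ := Finset.single_le_sum
        (f := fun v => ((σ v).num : ℝ) * t (some v))
        (fun w _ => mul_nonneg (Nat.cast_nonneg _) (lyap_nonneg ht _)) (Finset.mem_univ v)
  · intro m
    refine ⟨(m : ℝ) * ∑ v, t (some v), ?_⟩
    intro σ hσ
    unfold Psi
    rw [Finset.mul_sum]
    apply Finset.sum_le_sum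
    intro v _
    apply mul_le_mul_of_nonneg_right _ (lyap_nonneg ht _)
    have h1 : (σ v).num ≤ total σ := by
      unfold total
      exact Finset.single_le_sum (f := fun v => (σ v).num) (fun w _ => Nat.zero_le _)
        (Finset.mem_univ v)
    exact_mod_cast le_trans h1 hσ

end Pool.Agent.H98.ARW
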