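import Pool.Agent.H98.ARW.Drift
import Pool.Agent.H98.ARW.Min

set_option linter.unusedSectionVars false

namespace Pool.Agent.H98.ARW

open Finset Filter
open scoped NNReal

variable {V : Type} [Fintype V] [DecidableEq V]

/-- the kernel `P'` arises from `P` by moving mass to the sink -/
theorem lyap_le {P P' : Ker V} {t : Option V → ℝ} (ht : Lyap P t)
    (h : ∀ v w, P'.p v (some w) ≤ P.p v (some w)) : Lyap P' t := by
  refine ⟨ht.none_eq, ht.one_le, ?_⟩
  intro v
  refine le_trans ?_ (ht.drift v)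
  unfold avg
  rw [Fintype.sum_option, Fintype.sum_option, ht.none_eq, mul_zero, mul_zero, zero_add, zero_add]
  apply Finset.sum_le_sum
  intro w _
  exact mul_le_mul_of_nonneg_right (h v w) (lyap_nonneg ht _)

/-! ### linearity and monotonicity of `top` -/

theorem top_mono_at {P : Ker V} {lam : V → ℝ≥0} {u : V}
    {f g : Conf V → ℝ} {σ : Conf V} (h1 : f (slpAt σ u) ≤ g (slpAt σ u))
    (h2 : ∀ z, f (addAt (remAt σ u) z) ≤ g (addAt (remAt σ u) z)) :
    top P lam u f σ ≤ top P lam u g σ := by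
  unfold top
  have h3 := avg_mono P u h2
  have a1 : 0 ≤ (lam u : ℝ) / (1 + lam u) := by positivity
  have a2 : 0 ≤ 1 / (1 + (lam u : ℝ)) := by positivity
  exact add_le_add (mul_le_mul_of_nonneg_left h1 a1) (mul_le_mul_of_nonneg_left h3 a2)

theorem top_mul (P : Ker V) (lam : V → ℝ≥0) (u : V) (c : ℝ) (f : Conf V → ℝ)
    (σ : Conf V) : top P lam u (fun τ => c * f τ) σ = c * top P lam u f σ := by
  unfold top
  rw [avg_mul]; ring

theorem top_sub (P : Ker V) (lam : V → ℝ≥0) (u : V) (f g : Conf V → ℝ)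
    (σ : Conf V) : top P lam u (fun τ => f τ - g τ) σ =
      top P lam u f σ - top P lam u g σ := by
  unfold top
  rw [avg_sub]; ring

theorem top_zero (P : Ker V) (lam : V → ℝ≥0) (u : V) (σ : Conf V) :
    top P lam u (fun _ => 0) σ = 0 := by
  have := top_mul P lam u 0 (fun _ => 0) σ
  simpa using this

theorem top_const (P : Ker V) {lam : V → ℝ≥0} (u : V) (c : ℝ) (σ : Conf V) :
    top P lam u (fun _ => c) σ = c := by
  unfold top
  rw [avg_const P u]
  have h2 : (1 + (lam u : ℝ)) ≠ 0 := by positivity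
  field_simp
  ring

theorem top_avg (P P' : Ker V) (lam : V → ℝ≥0) (u v : V)
    (W : Option V → Conf V → ℝ) (σ : Conf V) :
    top P lam u (fun τ => avg P' v (fun z => W z τ)) σ =
      avg P' v (fun z => top P lam u (W z) σ) := by
  unfold top
  rw [avg_add, avg_mul, avg_mul, avg_comm]

theorem top_addAt (P : Ker V) (lam : V → ℝ≥0) (u : V) (f : Conf V → ℝ)
    (z : Option V) (σ : Conf V) (hu : 0 < (σ u).act) :
    top P lam u (fun τ => f (addAt τ z)) σ = top P lam u f (addAt σ z) := by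
  apply top_congr
  · rw [addAt_slpAt _ _ _ hu]
  · intro w
    rw [addAt_addAt, addAt_remAt _ _ _ hu]

theorem top_remAt (P : Ker V) (lam : V → ℝ≥0) {u x : V} (f : Conf V → ℝ)
    (σ : Conf V) (hux : u ≠ x) (hx : 0 < (σ x).act) :
    top P lam u (fun τ => f (remAt τ x)) σ = top P lam u f (remAt σ x) := by
  apply top_congr
  · rw [remAt_slpAt _ hux]
  · intro w
    rw [← addAt_remAt (remAt σ u) x w (by rw [act_remAt_ne _ hux]; exact hx), remAt_remAt]

/-- `P'` differs from `P` only at the site `x`, and the jump from `x` is swept: the average of every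
`P'`-superharmonic function at its end is not larger for `P'` -/
structure Swept (P P' : Ker V) (x : V) : Prop where
  ne : ∀ u, u ≠ x → ∀ z, P'.p u z = P.p u z
  bal : ∀ F : Option V → ℝ, (∀ v, avg P' v F ≤ F (some v)) → avg P' x F ≤ avg P x F

theorem top_swept_ne {P P' : Ker V} {x : V} (h : Swept P P' x) (lam : V → ℝ≥0)
    {u : V} (hu : u ≠ x) (f : Conf V → ℝ) (σ : Conf V) :
    top P' lam u f σ = top P lam u f σ := by
  unfold top avg
  simp only [h.ne u hu]

theorem top_diff (P P' : Ker V) (x : V) (lam : V → ℝ≥0)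
    (f : Conf V → ℝ) (σ : Conf V) :
    top P lam x f σ = top P' lam x f σ +
      1 / (1 + lam x) * (avg P x (fun z => f (addAt (remAt σ x) z)) -
        avg P' x (fun z => f (addAt (remAt σ x) z))) := by
  unfold top
  ring

/-- existence of the value function -/
theorem exists_val (hB : TaskBellman) {P : Ker V} {lam : V → ℝ≥0}
    {t : Option V → ℝ} (ht : Lyap P t)
    (A : Conf V → Prop) : ∃ L, IsVal P lam A L := by
  classical
  obtain ⟨Φ, h1, h2, h3⟩ := hB V P lam t ht
    (fun σ => if A σ then 1 else 0) (fun _ _ => 0) 1 0 le_rfl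
    (fun σ => by split_ifs <;> norm_num) (fun v σ _ => by simp)
    (fun u v σ _ _ _ => by
      have := top_zero P lam u σ
      have h' := top_zero P lam v σ
      simp only [this, h'])
  refine ⟨Φ, ⟨?_, ?_, ?_, ?_, ?_⟩⟩
  · intro σ hs hA; rw [h1 σ hs, if_pos hA]
  · intro σ hs hA; rw [h1 σ hs, if_neg hA]
  · intro σ v hv
    have := h2 σ v hv
    rw [zero_add] at this
    exact this
  · intro σ; exact (h3 σ).1
  · intro σ; have := (h3 σ).2; linarith

/-! ### Expected rewards collected at the topplings of `x` -/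

/-- reward for toppling `u`: the particle of `x` jumps -/
noncomputable def rew (lam : V → ℝ≥0) (x : V) (g : Conf V → ℝ) (u : V) (σ : Conf V) : ℝ :=
  if u = x then 1 / (1 + lam x) * g (remAt σ x) else 0

/-- the properties of the expected total reward -/
structure IsRew (P : Ker V) (lam : V → ℝ≥0) (t : Option V → ℝ) (x : V)
    (g W : Conf V → ℝ) : Prop where
  stable : ∀ σ, Stable σ → W σ = 0
  inv : ∀ σ u, 0 < (σ u).act → W σ = rew lam x g u σ + top P lam u W σ
  nonneg : ∀ σ, 0 ≤ W σ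
  le : ∀ σ, W σ ≤ Psi t σ

theorem exists_rew (hB : TaskBellman) {P P' : Ker V} {lam : V → ℝ≥0}
    {t : Option V → ℝ} (ht : Lyap P t) {x : V} (hm : Swept P P' x)
    (g : Conf V → ℝ) (hg0 : ∀ σ, 0 ≤ g σ) (hg1 : ∀ σ, g σ ≤ 1)
    (hg : ∀ σ u, 0 < (σ u).act → g σ = top P' lam u g σ) :
    ∃ W, IsRew P lam t x g W := by
  -- key: toppling a site different from `x` leaves the reward unchanged on average
  have key : ∀ (u : V) (σ : Conf V), u ≠ x → 0 < (σ u).act → 0 < (σ x).act →
      top P lam u (rew lam x g x) σ = rew lam x g x σ := by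
    intro u σ hu hau hax
    have h1 : rew lam x g x =
        fun τ => (1 / (1 + (lam x : ℝ))) * (fun ρ => g (remAt ρ x)) τ := by
      funext τ
      simp only [rew, if_true]
    rw [h1, top_mul, top_remAt P lam g σ hu hax, ← top_swept_ne hm lam hu g, ← hg]
    rw [act_remAt_ne _ hu.symm]; exact hau
  have hzero : ∀ v, v ≠ x → rew lam x g v = fun _ => 0 := by
    intro v hv; funext τ; simp [rew, hv]
  obtain ⟨Φ, h1, h2, h3⟩ := hB V P lam t ht
    (fun _ => 0) (rew lam x g) 0 1 zero_le_one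
    (fun σ => ⟨le_rfl, le_rfl⟩) (fun v σ _ => by
      unfold rew
      split_ifs with hv
      · subst hv
        have a1 : 0 ≤ 1 / (1 + (lam v : ℝ)) := by positivity
        have a2 := hg0 (remAt σ v)
        have a3 := hg1 (remAt σ v)
        exact ⟨mul_nonneg a1 a2, by nlinarith⟩
      · exact ⟨le_rfl, by positivity⟩)
    (fun u v σ huv hu hv => by
      by_cases hux : u = x
      · have hvx : v ≠ x := fun e => huv (hux.trans e.symm)
        rw [hzero v hvx, top_zero, hux, key v σ hvx hv (hux ▸ hu)]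
        ring
      · by_cases hvx : v = x
        · rw [hzero u hux, top_zero, hvx, key u σ hux hu (hvx ▸ hv)]
          ring
        · rw [hzero u hux, hzero v hvx, top_zero, top_zero])
  refine ⟨Φ, ⟨h1, h2, fun σ => (h3 σ).1, fun σ => ?_⟩⟩
  have := (h3 σ).2
  linarith

/-- minimum principle for topplings -/
theorem min_conf (hM : TaskMin) (hD : TaskDrift) {P : Ker V} {lam : V → ℝ≥0}
    {t : Option V → ℝ} (ht : Lyap P t)
    (S : Conf V → Prop) (D : Conf V → ℝ) (c0 : ℝ)
    (hst : ∀ σ, S σ → Stable σ → 0 ≤ D σ)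
    (hlow : ∀ σ, S σ → ¬ Stable σ → -(c0 * Psi t σ) ≤ D σ) (hc0 : 0 ≤ c0)
    (hstep : ∀ σ, S σ → ¬ Stable σ → ∃ u, 0 < (σ u).act ∧ S (slpAt σ u) ∧
      (∀ z, S (addAt (remAt σ u) z)) ∧ top P lam u D σ ≤ D σ) :
    ∀ σ, S σ → 0 ≤ D σ := by
  intro η hη
  obtain ⟨d1, d2, d3, d4, d5, d6⟩ := hD V P lam t ht
  obtain ⟨K, hK⟩ := d6 (total η)
  refine hM (Conf V) (fun σ => S σ ∧ total σ ≤ total η) D (Psi t) K (pp lam) c0
    (pp_pos lam) (fun σ hσ => ⟨d4 σ, hK σ hσ.2⟩) ?_ ?_ η ⟨hη, le_rfl⟩
  · intro σ hσ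
    by_cases hs : Stable σ
    · have := hst σ hσ.1 hs
      have := mul_nonneg hc0 (d4 σ)
      linarith
    · exact hlow σ hσ.1 hs
  · intro σ hσ
    by_cases hs : Stable σ
    · exact Or.inl (hst σ hσ.1 hs)
    · obtain ⟨u, hu, hs1, hs2, hs3⟩ := hstep σ hσ.1 hs
      refine Or.inr ⟨fun f => top P lam u f σ, ?_, ?_, hs3, ?_⟩
      · intro f g hfg
        apply top_mono_at
        · exact hfg _ ⟨hs1, le_trans (d2 u σ) hσ.2⟩
        · intro z
          exact hfg _ ⟨hs2 z, le_trans (d3 u z σ hu) hσ.2⟩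
      · intro c f
        exact top_mul P lam u c f σ
      · have h8 := d1 u σ hu
        have h9 := pp_le lam u
        show top P lam u (Psi t) σ ≤ Psi t σ - pp lam
        linarith

theorem exists_active {σ : Conf V} (h : ¬ Stable σ) : ∃ u, 0 < (σ u).act := by
  unfold Stable at h
  push Not at h
  obtain ⟨v, hv⟩ := h
  exact ⟨v, Nat.pos_of_ne_zero hv⟩

end Pool.Agent.H98.ARW
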