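import Pool.Agent.H98.ARW.Defs

/-! Existence of a Lyapunov weight. -/

set_option autoImplicit false

namespace Pool.Agent.H98.ARW

open Finset

/-- there is a directed path of length `n` from `a` to the sink -/
def lyReach {V : Type} [Fintype V] (P : Ker V) : ℕ → Option V → Prop
  | 0, a => a = none
  | n + 1, a => ∃ (w : V) (b : Option V), some w = a ∧ 0 < P.p w b ∧ lyReach P n b

lemma ly_exists {V : Type} [Fintype V] (P : Ker V) (a : Option V)
    (h : Relation.ReflTransGen (fun a b : Option V => ∃ w : V, some w = a ∧ 0 < P.p w b)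
      a none) : ∃ n, lyReach P n a := by
  induction h using Relation.ReflTransGen.head_induction_on with
  | refl => exact ⟨0, rfl⟩
  | head hab _ ih =>
    obtain ⟨w, hw1, hw2⟩ := hab
    obtain ⟨n, hn⟩ := ih
    exact ⟨n + 1, w, _, hw1, hw2, hn⟩

lemma ly_dist {V : Type} [Fintype V] (P : Ker V) (h : ToSink P) :
    ∃ d : Option V → ℕ, d none = 0 ∧
      ∀ v : V, ∃ z : Option V, 0 < P.p v z ∧ d z < d (some v) := by
  classical
  have hex : ∀ a : Option V, ∃ n, lyReach P n a := by
    intro a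
    cases a with
    | none => exact ⟨0, rfl⟩
    | some v => exact ly_exists P _ (h v)
  refine ⟨fun a => Nat.find (hex a), ?_, ?_⟩
  · exact (Nat.find_eq_zero (hex none)).2 rfl
  · intro v
    have hs := Nat.find_spec (hex (some v))
    obtain ⟨n, hn⟩ : ∃ n, Nat.find (hex (some v)) = n + 1 := by
      rcases Nat.eq_zero_or_pos (Nat.find (hex (some v))) with h0 | h0
      · rw [h0] at hs
        exact absurd hs (by simp [lyReach])
      · exact ⟨Nat.find (hex (some v)) - 1, by omega⟩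
    rw [hn] at hs
    obtain ⟨w, z, hw1, hw2, hw3⟩ := hs
    have hwv : w = v := Option.some_injective _ hw1
    subst hwv
    refine ⟨z, hw2, ?_⟩
    show Nat.find (hex z) < Nat.find (hex (some w))
    have := Nat.find_min' (hex z) hw3
    omega

lemma ly_alpha {V : Type} [Fintype V] (P : Ker V) :
    ∃ α : ℝ, 0 < α ∧ α ≤ 1 ∧ ∀ v z, 0 < P.p v z → α ≤ P.p v z := by
  classical
  have hle1 : ∀ v z, P.p v z ≤ 1 := by
    intro v z
    rw [← P.sum_one v]
    exact single_le_sum (f := fun z => P.p v z) (fun z _ => P.nonneg v z) (mem_univ z)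
  let h : V × Option V → ℝ := fun q => if 0 < P.p q.1 q.2 then P.p q.1 q.2 else 1
  have h0 : ∀ q, 0 < h q := by
    intro q
    simp only [h]
    split_ifs with hq
    · exact hq
    · exact one_pos
  have h1 : ∀ q, h q ≤ 1 := by
    intro q
    simp only [h]
    split_ifs with hq
    · exact hle1 _ _
    · exact le_rfl
  refine ⟨∏ q, h q, prod_pos fun q _ => h0 q, prod_le_one (fun q _ => (h0 q).le) fun q _ => h1 q, ?_⟩
  intro v z hvz
  have h2 : h (v, z) = P.p v z := by
    simp only [h]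
    rw [if_pos hvz]
  rw [← h2, ← mul_prod_erase univ h (mem_univ (v, z))]
  exact mul_le_of_le_one_right (h0 _).le (prod_le_one (fun q _ => (h0 q).le) fun q _ => h1 q)

theorem tLyap : TaskLyap := by
  intro V _ _ P hsink
  classical
  obtain ⟨d, hd0, hd⟩ := ly_dist P hsink
  obtain ⟨D, hD⟩ : ∃ D : ℕ, ∀ v : V, d (some v) ≤ D :=
    ⟨∑ v : V, d (some v), fun v =>
      Finset.single_le_sum (f := fun v => d (some v)) (fun _ _ => Nat.zero_le _) (mem_univ v)⟩
  obtain ⟨α, hαpos, hα1, hα⟩ := ly_alpha P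
  set δ : ℝ := α / 2 with hδ
  have hδpos : 0 < δ := by rw [hδ]; positivity
  have hδhalf : δ ≤ 1 / 2 := by rw [hδ]; linarith
  have hδ1 : δ ≤ 1 := by linarith
  set M : ℝ := 2 / δ ^ D with hM
  have hDpos : 0 < δ ^ D := pow_pos hδpos D
  have hMpos : 0 < M := by rw [hM]; positivity
  have hM2 : 2 ≤ M := by
    rw [hM, le_div_iff₀ hDpos]
    have : δ ^ D ≤ 1 := pow_le_one₀ hδpos.le hδ1
    linarith
  have hpowpos : ∀ n : ℕ, 0 < δ ^ n := fun n => pow_pos hδpos n
  have hpow : ∀ n : ℕ, n ≤ D → 2 ≤ M * δ ^ n := by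
    intro n hn
    have h1 : δ ^ D ≤ δ ^ n := pow_le_pow_of_le_one hδpos.le hδ1 hn
    calc (2 : ℝ) = M * δ ^ D := by rw [hM]; field_simp
      _ ≤ M * δ ^ n := mul_le_mul_of_nonneg_left h1 hMpos.le
  refine ⟨fun a => M * (1 - δ ^ d a), ?_, ?_, ?_⟩
  · simp [hd0]
  · intro v
    obtain ⟨e, _, he⟩ := hd v
    have hpos : 1 ≤ d (some v) := by omega
    have h1 : δ ^ d (some v) ≤ δ ^ 1 := pow_le_pow_of_le_one hδpos.le hδ1 hpos
    rw [pow_one] at h1
    show 1 ≤ M * (1 - δ ^ d (some v))
    nlinarith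
  · intro v
    obtain ⟨z, hz, he⟩ := hd v
    show avg P v (fun a => M * (1 - δ ^ d a)) ≤ M * (1 - δ ^ d (some v)) - 1
    have hsum : avg P v (fun a => M * (1 - δ ^ d a)) = M - M * ∑ a, P.p v a * δ ^ d a := by
      unfold avg
      have : ∀ a, P.p v a * (M * (1 - δ ^ d a)) = P.p v a * M - M * (P.p v a * δ ^ d a) :=
        fun a => by ring
      simp only [this]
      rw [sum_sub_distrib, ← sum_mul, P.sum_one, one_mul, mul_sum]
    rw [hsum]
    have h3 : α * δ ^ d z ≤ ∑ a, P.p v a * δ ^ d a := by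
      calc α * δ ^ d z ≤ P.p v z * δ ^ d z :=
            mul_le_mul_of_nonneg_right (hα v z hz) (hpowpos _).le
        _ ≤ _ := single_le_sum (f := fun a => P.p v a * δ ^ d a)
            (fun a _ => mul_nonneg (P.nonneg v a) (hpowpos _).le) (mem_univ z)
    have hdle : d z + 1 ≤ d (some v) := by omega
    have h4 : δ ^ d (some v) ≤ δ ^ (d z + 1) :=
      pow_le_pow_of_le_one hδpos.le hδ1 hdle
    have h4' : δ ^ d (some v) ≤ δ ^ d z * δ := by rw [← pow_succ]; exact h4
    have h5 := hpow (d (some v)) (hD v)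
    have h7 : 0 < δ ^ d z := hpowpos _
    have h8 : 0 < δ ^ d (some v) := hpowpos _
    set p := δ ^ d (some v) with hp
    set q := δ ^ d z with hq
    have h9 : 2 * p ≤ α * q := by
      calc 2 * p ≤ 2 * (q * δ) := by linarith
        _ = α * q := by rw [hδ]; ring
    have h10 : M * (2 * p) ≤ M * (α * q) := mul_le_mul_of_nonneg_left h9 hMpos.le
    have h11 : M * (α * q) ≤ M * ∑ a, P.p v a * δ ^ d a := mul_le_mul_of_nonneg_left h3 hMpos.le
    nlinarith

end Pool.Agent.H98.ARW
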