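import Pool.Agent.H98.ARW.Main
import Pool.Agent.H98.ARW.Lyap
import Pool.Agent.H98.ARW.Bellman
import Pool.Agent.H98.ARW.Wake
import Pool.Agent.H98.ARW.Jump

/-! General kernels: moving any part of the mass to the sink and lowering the sleep rates. -/

set_option autoImplicit false

namespace Pool.Agent.H98.ARW

open Finset Filter
open scoped NNReal

variable {V : Type} [Fintype V] [DecidableEq V]

theorem probGE_eq {P : Ker V} {lam : V → ℝ≥0} {t : Option V → ℝ}
    (ht : Lyap P t) (k : ℕ) (L : Conf V → ℝ)
    (hL : IsVal P lam (fun σ => k ≤ sleepers σ) L) (η : Conf V) :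
    probGE P lam k η = L η := by
  obtain ⟨h1, h2⟩ := Jump.tJump tDrift V P lam t ht _ L hL η
  unfold probGE
  apply le_antisymm
  · exact ciSup_le h1
  · refine le_of_tendsto' h2 (fun n => ?_)
    exact le_ciSup (f := fun n : ℕ => probBy P lam (fun σ => k ≤ sleepers σ) n η)
      ⟨L η, by rintro x ⟨n, rfl⟩; exact h1 n⟩ n

/-- lowering the sleep rates -/
theorem le_of_lam {P : Ker V} {lam lam' : V → ℝ≥0} {t : Option V → ℝ} (ht : Lyap P t)
    (hlam : ∀ v, lam' v ≤ lam v) (k : ℕ) (η : Conf V) :
    probGE P lam' k η ≤ probGE P lam k η := by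
  have hB := tBellman tComm tDrift
  have hW := tWake tMin tDrift
  obtain ⟨L, hL⟩ := exists_val (lam := lam) hB ht (fun σ => k ≤ sleepers σ)
  obtain ⟨L', hL'⟩ := exists_val (lam := lam') hB ht (fun σ => k ≤ sleepers σ)
  obtain ⟨-, -, -, d4, d5, -⟩ := tDrift V P lam t ht
  rw [probGE_eq ht k L hL, probGE_eq ht k L' hL']
  have := min_conf tMin tDrift (lam := lam) ht (fun _ => True) (fun σ => L σ - L' σ) 1
    (fun σ _ hs => by
      by_cases hA : k ≤ sleepers σ
      · simp only [hL.stable_one σ hs hA, hL'.stable_one σ hs hA, sub_self, le_refl]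
      · simp only [hL.stable_zero σ hs hA, hL'.stable_zero σ hs hA, sub_self, le_refl])
    (fun σ _ hs => by
      have := hL.nonneg σ
      have := hL'.le_one σ
      have := d5 σ hs
      linarith) zero_le_one
    (fun σ _ hs => by
      obtain ⟨u, hu⟩ := exists_active hs
      refine ⟨u, hu, trivial, fun _ => trivial, ?_⟩
      rw [top_sub, ← hL.inv σ u hu]
      have h1 := hL'.inv σ u hu
      have h2 : L' σ ≤ L' (slpAt σ u) := by
        apply hW V P lam' t ht k L' hL'
        intro w
        by_cases h : u = w
        · subst h
          obtain ⟨j, hj⟩ := (act_pos_iff _).1 hu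
          rw [slpAt_apply, if_pos rfl, hj]
          simp only [Site.slp]
          split_ifs with h1
          · right; exact ⟨rfl, by rw [h1]⟩
          · left; rfl
        · left
          rw [slpAt_apply, if_neg h]
      have h3 : L' σ ≤ top P lam u L' σ := by
        unfold top at h1 ⊢
        set a := L' (slpAt σ u)
        set b := avg P u (fun z => L' (addAt (remAt σ u) z))
        have p1 : 0 < 1 + (lam' u : ℝ) := by positivity
        have p2 : 0 < 1 + (lam u : ℝ) := by positivity
        have h4 : (lam' u : ℝ) ≤ lam u := by exact_mod_cast hlam u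
        have h5 : (1 + (lam' u : ℝ)) * L' σ = lam' u * a + b := by
          rw [h1]; field_simp
        have h6 : (1 + (lam u : ℝ)) * L' σ ≤ lam u * a + b := by
          have : (lam u - lam' u : ℝ) * L' σ ≤ (lam u - lam' u) * a :=
            mul_le_mul_of_nonneg_left h2 (by linarith)
          linarith
        have h7 : (lam u : ℝ) / (1 + lam u) * a + 1 / (1 + lam u) * b =
            (lam u * a + b) / (1 + lam u) := by field_simp
        rw [h7, le_div_iff₀ p2]
        linarith
      linarith)
    η trivial
  linarith

/-- sweeping the jump from one site -/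
theorem le_of_swept {P P' : Ker V} {lam : V → ℝ≥0} {t t' : Option V → ℝ} (ht : Lyap P t)
    (ht' : Lyap P' t') {x : V} (hm : Swept P P' x) (k : ℕ)
    (η : Conf V) (hη : ∀ v, η v ≠ Site.asleep) :
    probGE P' lam k η ≤ probGE P lam k η := by
  have hB := tBellman tComm tDrift
  have hW := tWake tMin tDrift
  obtain ⟨L, hL⟩ := exists_val (lam := lam) hB ht (fun σ => k ≤ sleepers σ)
  obtain ⟨L', hL'⟩ := exists_val (lam := lam) hB ht' (fun σ => k ≤ sleepers σ)
  rw [probGE_eq ht k L hL, probGE_eq ht' k L' hL']
  exact main_le hB hW ht ht' hm k L L' hL hL' η hη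

/-- the kernel with the jump probabilities `q v w` between the sites, the rest goes to the sink -/
noncomputable def mk (q : V → V → ℝ) (h0 : ∀ v w, 0 ≤ q v w) (h1 : ∀ v, ∑ w, q v w ≤ 1) :
    Ker V where
  p := fun v z => match z with
    | none => 1 - ∑ w, q v w
    | some w => q v w
  nonneg := by
    intro v z
    cases z with
    | none => simpa using h1 v
    | some w => exact h0 v w
  sum_one := by
    intro v
    rw [Fintype.sum_option]
    simp

theorem avg_eq (P : Ker V) (v : V) (F : Option V → ℝ) :
    avg P v F = F none + ∑ w, P.p v (some w) * (F (some w) - F none) := by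
  have h := P.sum_one v
  rw [Fintype.sum_option] at h
  unfold avg
  rw [Fintype.sum_option]
  have h2 : ∑ w, P.p v (some w) * (F (some w) - F none) =
      ∑ w, P.p v (some w) * F (some w) - (∑ w, P.p v (some w)) * F none := by
    rw [Finset.sum_mul, ← Finset.sum_sub_distrib]
    exact Finset.sum_congr rfl fun w _ => by ring
  rw [h2]
  have h3 : P.p v none = 1 - ∑ w, P.p v (some w) := by linarith
  rw [h3]; ring

/-- a superharmonic function is minimal at the sink -/
theorem superharmonic_ge {P : Ker V} {t : Option V → ℝ} (ht : Lyap P t) (F : Option V → ℝ)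
    (hF : ∀ v, avg P v F ≤ F (some v)) (z : Option V) : F none ≤ F z := by
  obtain ⟨C, hC0, hC⟩ : ∃ C : ℝ, 0 ≤ C ∧ ∀ z, |F z - F none| ≤ C :=
    ⟨∑ z, |F z - F none|, Finset.sum_nonneg fun z _ => abs_nonneg _, fun z =>
      Finset.single_le_sum (f := fun z => |F z - F none|) (fun z _ => abs_nonneg _)
        (Finset.mem_univ z)⟩
  have := tMin (Option V) (fun _ => True) (fun z => F z - F none) t
    (∑ v, t (some v)) 1 C one_pos ?_ ?_ ?_ z trivial
  · linarith
  · intro z _
    refine ⟨lyap_nonneg ht z, ?_⟩
    cases z with
    | none =>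
      rw [ht.none_eq]
      exact Finset.sum_nonneg fun v _ => lyap_nonneg ht _
    | some v =>
      exact Finset.single_le_sum (f := fun v => t (some v)) (fun w _ => lyap_nonneg ht _)
        (Finset.mem_univ v)
  · intro z _
    cases z with
    | none => simp [ht.none_eq]
    | some v =>
      have h1 := ht.one_le v
      have h2 := (abs_le.1 (hC (some v))).1
      have h3 : C ≤ C * t (some v) := by nlinarith
      linarith
  · intro z _
    cases z with
    | none => left; simp
    | some v =>
      right
      refine ⟨avg P v, ?_, ?_, ?_, ht.drift v⟩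
      · intro f g hfg
        exact avg_mono P v (fun z => hfg z trivial)
      · intro c f
        exact avg_mul P v c f
      · rw [avg_sub, avg_const P v]
        linarith [hF v]

/-- `P'` arises from `P` by finitely many sweeps of the jumps from single sites; the sink is
reached from every site with all kernels in between -/
def Lowered (P P' : Ker V) : Prop :=
  Relation.ReflTransGen (fun A B : Ker V => ToSink B ∧ ∃ x : V, Swept A B x) P P'

/-- moving mass to the sink keeps the sink reachable -/
theorem toSink_le {P P' : Ker V} (hP : ToSink P)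
    (h : ∀ v w, P'.p v (some w) ≤ P.p v (some w)) : ToSink P' := by
  intro v
  have hpos : ∀ u, P.p u none ≤ P'.p u none := by
    intro u
    have h1 := P.sum_one u
    have h2 := P'.sum_one u
    rw [Fintype.sum_option] at h1 h2
    have h3 := Finset.sum_le_sum fun w (_ : w ∈ Finset.univ) => h u w
    linarith
  have key : ∀ a b : Option V, Relation.ReflTransGen
      (fun a b : Option V => ∃ w : V, some w = a ∧ 0 < P.p w b) a b → b = none →
      Relation.ReflTransGen (fun a b : Option V => ∃ w : V, some w = a ∧ 0 < P'.p w b) a none := by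
    intro a b hab hb
    induction hab using Relation.ReflTransGen.head_induction_on with
    | refl => rw [hb]
    | head hac hcb ih =>
      obtain ⟨w, hw, hp⟩ := hac
      rename_i a' c'
      by_cases hc : 0 < P'.p w c'
      · exact Relation.ReflTransGen.head ⟨w, hw, hc⟩ ih
      · -- mass was moved to the sink
        refine Relation.ReflTransGen.single ⟨w, hw, ?_⟩
        cases c' with
        | none => exact lt_of_lt_of_le hp (hpos w)
        | some y =>
          have h1 := P.sum_one w
          have h2 := P'.sum_one w
          rw [Fintype.sum_option] at h1 h2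
          have h3 : ∑ y, P'.p w (some y) < ∑ y, P.p w (some y) :=
            Finset.sum_lt_sum (fun y _ => h w y) ⟨y, Finset.mem_univ y, by
              have := P'.nonneg w (some y)
              linarith [not_lt.1 hc]⟩
          have := P.nonneg w none
          linarith
  exact key _ _ (hP v) rfl

/-- moving any mass to the sink is a lowering -/
theorem lowered_of_le {P P' : Ker V} (hP : ToSink P)
    (h : ∀ v w, P'.p v (some w) ≤ P.p v (some w)) : Lowered P P' := by
  classical
  have hsum : ∀ v, ∑ w, P.p v (some w) ≤ 1 := by
    intro v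
    have h1 := P.sum_one v
    rw [Fintype.sum_option] at h1
    have := P.nonneg v none
    linarith
  -- the kernel changed at the sites of `T`
  let q : Finset V → V → V → ℝ := fun T v w =>
    if v ∈ T then P'.p v (some w) else P.p v (some w)
  have hq0 : ∀ T v w, 0 ≤ q T v w := by
    intro T v w
    simp only [q]
    split_ifs
    · exact P'.nonneg _ _
    · exact P.nonneg _ _
  have hqle : ∀ T v w, q T v w ≤ P.p v (some w) := by
    intro T v w
    simp only [q]
    split_ifs
    · exact h v w
    · exact le_rfl
  have hq1 : ∀ T v, ∑ w, q T v w ≤ 1 := fun T v =>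
    (Finset.sum_le_sum fun w _ => hqle T v w).trans (hsum v)
  let Q : Finset V → Ker V := fun T => mk (q T) (hq0 T) (hq1 T)
  have hQs : ∀ T v w, (Q T).p v (some w) = q T v w := fun T v w => rfl
  have htQ : ∀ T, ToSink (Q T) := fun T => toSink_le hP fun v w => hqle T v w
  have hnone : ∀ (A B : Ker V) (v : V), (∀ w, A.p v (some w) = B.p v (some w)) →
      ∀ z, A.p v z = B.p v z := by
    intro A B v hAB z
    cases z with
    | some w => exact hAB w
    | none =>
      have h1 := A.sum_one v
      have h2 := B.sum_one v
      rw [Fintype.sum_option] at h1 h2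
      have h3 : ∑ w, A.p v (some w) = ∑ w, B.p v (some w) :=
        Finset.sum_congr rfl fun w _ => hAB w
      linarith
  have hext : ∀ A B : Ker V, (∀ v w, A.p v (some w) = B.p v (some w)) → A = B := by
    intro A B hAB
    have : A.p = B.p := by
      funext v z
      exact hnone A B v (hAB v) z
    cases A; cases B; congr
  have key : ∀ T : Finset V, Lowered P (Q T) := by
    intro T
    induction T using Finset.induction_on with
    | empty =>
      have : Q ∅ = P := hext _ _ fun v w => by rw [hQs]; simp [q]
      rw [this]
      exact Relation.ReflTransGen.refl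
    | insert x T hx ih =>
      refine Relation.ReflTransGen.tail ih ⟨htQ _, x, ?_, ?_⟩
      · intro u hu
        refine hnone _ _ u fun w => ?_
        rw [hQs, hQs]
        simp only [q, Finset.mem_insert, hu, false_or]
      · intro F hF
        obtain ⟨t, ht⟩ := tLyap V _ (htQ (insert x T))
        have hmin := superharmonic_ge ht F hF
        rw [avg_eq, avg_eq]
        have : ∑ w, (Q (insert x T)).p x (some w) * (F (some w) - F none) ≤
            ∑ w, (Q T).p x (some w) * (F (some w) - F none) := by
          apply Finset.sum_le_sum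
          intro w _
          apply mul_le_mul_of_nonneg_right _ (by linarith [hmin (some w)])
          rw [hQs, hQs]
          simp only [q]
          rw [if_pos (Finset.mem_insert_self _ _), if_neg hx]
          exact h x w
        linarith
  have hfin : Q Finset.univ = P' := hext _ _ fun v w => by rw [hQs]; simp [q]
  rw [← hfin]
  exact key _

/-- lowering the kernel -/
theorem le_of_lowered {P P' : Ker V} {lam : V → ℝ≥0} (hP : ToSink P) (h : Lowered P P') (k : ℕ)
    (η : Conf V) (hη : ∀ v, η v ≠ Site.asleep) :
    ToSink P' ∧ probGE P' lam k η ≤ probGE P lam k η := by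
  induction h with
  | refl => exact ⟨hP, le_rfl⟩
  | tail _ hbc ih =>
    obtain ⟨hB, x, hx⟩ := hbc
    obtain ⟨t, ht⟩ := tLyap V _ ih.1
    obtain ⟨t', ht'⟩ := tLyap V _ hB
    exact ⟨hB, (le_of_swept ht ht' hx k η hη).trans ih.2⟩

/-- an additional active particle -/
theorem le_addAt {P : Ker V} {lam : V → ℝ≥0} {t : Option V → ℝ} (ht : Lyap P t) (k : ℕ)
    (η : Conf V) (hη : ∀ v, η v ≠ Site.asleep) (z : Option V) :
    probGE P lam k η ≤ probGE P lam k (addAt η z) := by
  have hB := tBellman tComm tDrift
  have hW := tWake tMin tDrift
  obtain ⟨L, hL⟩ := exists_val (lam := lam) hB ht (fun σ => k ≤ sleepers σ)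
  rw [probGE_eq ht k L hL, probGE_eq ht k L hL]
  have h0 : 0 ≤ L η := hL.nonneg η
  have := tMin (Option V) (fun _ => True) (fun z => L (addAt η z) - L η) t
    (∑ v, t (some v)) 1 (L η) one_pos ?_ ?_ ?_ z trivial
  · linarith
  · intro z _
    refine ⟨lyap_nonneg ht z, ?_⟩
    cases z with
    | none =>
      rw [ht.none_eq]
      exact Finset.sum_nonneg fun v _ => lyap_nonneg ht _
    | some v =>
      exact Finset.single_le_sum (f := fun v => t (some v)) (fun w _ => lyap_nonneg ht _)
        (Finset.mem_univ v)
  · intro z _
    cases z with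
    | none => simp [ht.none_eq, addAt]
    | some v =>
      have h1 := ht.one_le v
      have h2 := hL.nonneg (addAt η (some v))
      have h3 : L η ≤ L η * t (some v) := by nlinarith
      linarith
  · intro z _
    cases z with
    | none => left; simp [addAt]
    | some v =>
      right
      refine ⟨avg P v, ?_, ?_, ?_, ht.drift v⟩
      · intro f g hfg
        exact avg_mono P v (fun z => hfg z trivial)
      · intro c f
        exact avg_mul P v c f
      · rw [avg_sub, avg_const P v]
        have := fact_one hW ht k L hL v η (hη v)
        linarith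

/-- more active particles at the start -/
theorem le_of_start {P : Ker V} {lam : V → ℝ≥0} {t : Option V → ℝ} (ht : Lyap P t) (k : ℕ)
    (η : V → ℕ) : ∀ (n : ℕ) (η' : V → ℕ), (∀ v, η' v ≤ η v) → ∑ v, η v = ∑ v, η' v + n →
    probGE P lam k (fun v => Site.active (η' v)) ≤ probGE P lam k (fun v => Site.active (η v)) := by
  intro n
  induction n with
  | zero =>
    intro η' h1 h2
    have : η' = η := by
      funext v
      by_contra hne
      have hlt : ∑ v, η' v < ∑ v, η v :=
        Finset.sum_lt_sum (fun v _ => h1 v) ⟨v, Finset.mem_univ v, lt_of_le_of_ne (h1 v) hne⟩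
      omega
    rw [this]
  | succ n ih =>
    intro η' h1 h2
    obtain ⟨v, hv⟩ : ∃ v, η' v < η v := by
      by_contra hcon
      push Not at hcon
      have : ∑ v, η v ≤ ∑ v, η' v := Finset.sum_le_sum fun v _ => hcon v
      omega
    have h3 : (fun w => Site.active (Function.update η' v (η' v + 1) w)) =
        addAt (fun w => Site.active (η' w)) (some v) := by
      funext w
      rw [addAt_apply]
      by_cases hw : w = v
      · subst hw; simp [Site.add]
      · have : ¬ (some v = some w) := fun e => hw (Option.some.inj e).symm
        rw [if_neg this, Function.update_of_ne hw]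
    refine (le_addAt ht k (fun w => Site.active (η' w)) (fun w => by simp) (some v)).trans ?_
    rw [← h3]
    apply ih
    · intro w
      by_cases hw : w = v
      · subst hw; rw [Function.update_self]; omega
      · rw [Function.update_of_ne hw]; exact h1 w
    · have h4 : ∑ w, Function.update η' v (η' v + 1) w = ∑ w, η' w + 1 := by
        rw [Finset.sum_update_of_mem (Finset.mem_univ v),
          ← Finset.add_sum_erase _ _ (Finset.mem_univ v), Finset.sdiff_singleton_eq_erase]
        ring
      rw [h4, h2]; ring

/-- the general monotonicity theorem -/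
theorem general {P P' : Ker V} {lam lam' : V → ℝ≥0} (hP : ToSink P)
    (h : Lowered P P') (hlam : ∀ v, lam' v ≤ lam v)
    {η η' : V → ℕ} (hη : ∀ v, η' v ≤ η v) (k : ℕ) :
    probGE P' lam' k (fun v => Site.active (η' v)) ≤
      probGE P lam k (fun v => Site.active (η v)) := by
  obtain ⟨t, ht⟩ := tLyap V P hP
  obtain ⟨n, hn⟩ := Nat.exists_eq_add_of_le (Finset.sum_le_sum fun v (_ : v ∈ Finset.univ) => hη v)
  exact (le_of_lowered hP h k _ (fun v => by simp)).2.trans ((le_of_lam ht hlam k _).trans
    (le_of_start ht k η n η' hη hn))

end Pool.Agent.H98.ARW
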