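import Pool.Agent.H98.ARW.Final

set_option linter.unusedSectionVars false

namespace Pool.Agent.H98.ARW

open Finset Filter
open scoped NNReal

variable {V : Type} [Fintype V] [DecidableEq V]

/-- Fact 1: superharmonicity at a configuration where `v` is not asleep -/
theorem fact_one (hW : TaskWake) {P : Ker V} {lam : V → ℝ≥0}
    {t : Option V → ℝ} (ht : Lyap P t)
    (k : ℕ) (L : Conf V → ℝ) (hL : IsVal P lam (fun σ => k ≤ sleepers σ) L)
    (v : V) (τ : Conf V) (hv : τ v ≠ Site.asleep) :
    avg P v (fun z => L (addAt τ z)) ≤ L (addAt τ (some v)) := by
  obtain ⟨j, hj⟩ : ∃ j, τ v = Site.active j := by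
    cases h : τ v with
    | active j => exact ⟨j, rfl⟩
    | asleep => exact absurd h hv
  have hadd : addAt τ (some v) v = Site.active (j + 1) := by
    rw [addAt_apply]; simp [hj, Site.add]
  have hact : 0 < (addAt τ (some v) v).act := by rw [hadd]; simp [Site.act]
  have hrem : remAt (addAt τ (some v)) v = τ := by
    funext w
    rw [remAt_apply]
    by_cases h : v = w
    · subst h; rw [if_pos rfl, hadd, hj]; rfl
    · rw [if_neg h, addAt_apply]
      have : ¬ (some v = some w) := fun e => h (Option.some.inj e)
      rw [if_neg this]
  have hinv := hL.inv (addAt τ (some v)) v hact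
  unfold top at hinv
  rw [hrem] at hinv
  have hslp : L (addAt τ (some v)) ≤ L (slpAt (addAt τ (some v)) v) := by
    apply hW V P lam t ht k L hL
    intro w
    by_cases h : v = w
    · subst h
      rw [slpAt_apply, if_pos rfl, hadd]
      simp only [Site.slp]
      split_ifs with h1
      · right; exact ⟨rfl, by rw [h1]⟩
      · left; rfl
    · left
      rw [slpAt_apply, if_neg h]
  have h1 : (lam v : ℝ) / (1 + lam v) * L (addAt τ (some v)) ≤
      lam v / (1 + lam v) * L (slpAt (addAt τ (some v)) v) :=
    mul_le_mul_of_nonneg_left hslp (by positivity)
  have h2 : L (addAt τ (some v)) = lam v / (1 + lam v) * L (addAt τ (some v)) +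
      1 / (1 + lam v) * L (addAt τ (some v)) := by
    have : (1 + (lam v : ℝ)) ≠ 0 := by positivity
    field_simp
    ring
  have h3 : 1 / (1 + (lam v : ℝ)) * avg P v (fun z => L (addAt τ z)) ≤
      1 / (1 + lam v) * L (addAt τ (some v)) := by linarith
  exact le_of_mul_le_mul_left h3 (by positivity)

theorem main_le (hB : TaskBellman) (hW : TaskWake) {P P' : Ker V} {lam : V → ℝ≥0}
    {t t' : Option V → ℝ} (ht : Lyap P t) (ht' : Lyap P' t') {x : V}
    (hm : Swept P P' x) (k : ℕ) (L L' : Conf V → ℝ)
    (hL : IsVal P lam (fun σ => k ≤ sleepers σ) L)
    (hL' : IsVal P' lam (fun σ => k ≤ sleepers σ) L')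
    (η : Conf V) (hη : ∀ v, η v ≠ Site.asleep) : L' η ≤ L η := by
  obtain ⟨-, -, -, d4, d5, -⟩ := tDrift V P lam t ht
  -- rewards
  have hex : ∀ z : Option V, ∃ W, IsRew P lam t x (fun τ => L' (addAt τ z)) W := by
    intro z
    apply exists_rew hB ht hm
    · intro σ; exact hL'.nonneg _
    · intro σ; exact hL'.le_one _
    · intro σ u hu
      rw [top_addAt P' lam u L' z σ hu]
      exact hL'.inv _ u (act_addAt _ _ hu)
  choose W hWr using hex
  set Q : Conf V → ℝ := fun σ => avg P x (fun z => W z σ) - avg P' x (fun z => W z σ) with hQ
  -- Step A
  have stepA : L η - L' η - Q η = 0 := by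
    have hZinv : ∀ σ u, 0 < (σ u).act →
        top P lam u (fun τ => L τ - L' τ - Q τ) σ = L σ - L' σ - Q σ := by
      intro σ u hu
      rw [top_sub P lam u (fun τ => L τ - L' τ) (fun τ => Q τ), top_sub, ← hL.inv σ u hu]
      have eQ : top P lam u (fun τ => Q τ) σ = Q σ -
          (avg P x (fun z => rew lam x (fun τ => L' (addAt τ z)) u σ) -
            avg P' x (fun z => rew lam x (fun τ => L' (addAt τ z)) u σ)) := by
        have e2 : ∀ z, top P lam u (W z) σ =
            W z σ - rew lam x (fun τ => L' (addAt τ z)) u σ := by
          intro z
          have := (hWr z).inv σ u hu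
          linarith
        simp only [hQ]
        rw [top_sub, top_avg P P lam u x W σ, top_avg P P' lam u x W σ,
          avg_congr P x e2, avg_congr P' x e2, avg_sub, avg_sub]
        ring
      rw [eQ]
      have e3 := hL'.inv σ u hu
      by_cases hux : u = x
      · subst hux
        have e6 := top_diff P P' u lam L' σ
        rw [← e3] at e6
        simp only [rew, if_true]
        rw [avg_mul, avg_mul, e6]
        ring
      · rw [top_swept_ne hm lam hux] at e3
        rw [← e3]
        simp only [rew, if_neg hux]
        rw [avg_const, avg_const]
        ring
    have hst : ∀ σ, Stable σ → L σ - L' σ - Q σ = 0 := by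
      intro σ hs
      have e0 : ∀ z, W z σ = 0 := fun z => (hWr z).stable σ hs
      have eQ : Q σ = 0 := by
        simp only [hQ]
        rw [avg_congr P x e0, avg_congr P' x e0, avg_const, avg_const, sub_self]
      rw [eQ]
      by_cases hA : k ≤ sleepers σ
      · rw [hL.stable_one σ hs hA, hL'.stable_one σ hs hA]; ring
      · rw [hL.stable_zero σ hs hA, hL'.stable_zero σ hs hA]; ring
    have hbd : ∀ σ, ¬ Stable σ → |L σ - L' σ - Q σ| ≤ 2 * Psi t σ := by
      intro σ hs
      have a1 := hL.nonneg σ
      have a2 := hL.le_one σ
      have a3 := hL'.nonneg σ
      have a4 := hL'.le_one σ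
      have b1 : ∀ R : Ker V, 0 ≤ avg R x (fun z => W z σ) ∧ avg R x (fun z => W z σ) ≤ Psi t σ := by
        intro R
        constructor
        · calc (0 : ℝ) = avg R x (fun _ => 0) := (avg_const R x 0).symm
            _ ≤ _ := avg_mono R x fun z => (hWr z).nonneg σ
        · calc avg R x (fun z => W z σ) ≤ avg R x (fun _ => Psi t σ) :=
                avg_mono R x fun z => (hWr z).le σ
            _ = _ := avg_const R x _
      have a5 := b1 P
      have a6 := b1 P'
      have a9 := d5 σ hs
      simp only [hQ]
      rw [abs_le]
      constructor <;> linarith [a5.1, a5.2, a6.1, a6.2]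
    apply le_antisymm
    · have := min_conf tMin tDrift ht (fun _ => True)
        (fun σ => -(L σ - L' σ - Q σ)) 2
        (fun σ _ hs => by simp only [hst σ hs, neg_zero, le_refl])
        (fun σ _ hs => by
          have := (abs_le.1 (hbd σ hs)).2
          linarith) (by norm_num)
        (fun σ _ hs => by
          obtain ⟨u, hu⟩ := exists_active hs
          refine ⟨u, hu, trivial, fun _ => trivial, ?_⟩
          have h1 := top_mul P lam u (-1)
            (fun τ => L τ - L' τ - Q τ) σ
          simp only [neg_one_mul] at h1
          rw [h1, hZinv σ u hu])
        η trivial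
      linarith
    · exact min_conf tMin tDrift ht (fun _ => True)
        (fun σ => L σ - L' σ - Q σ) 2
        (fun σ _ hs => by simp only [hst σ hs, le_refl])
        (fun σ _ hs => by
          have := (abs_le.1 (hbd σ hs)).1
          linarith) (by norm_num)
        (fun σ _ hs => by
          obtain ⟨u, hu⟩ := exists_active hs
          exact ⟨u, hu, trivial, fun _ => trivial, (hZinv σ u hu).le⟩)
        η trivial
  -- Step B
  have stepB : ∀ v : V, avg P' v (fun z => W z η) ≤ W (some v) η := by
    intro v
    have := min_conf tMin tDrift ht (fun σ => σ v ≠ Site.asleep ∨ Stable σ)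
      (fun σ => W (some v) σ - avg P' v (fun z => W z σ)) 1
      (fun σ _ hs => by
        have : avg P' v (fun z => W z σ) = 0 := by
          rw [avg_congr P' v (fun z => (hWr z).stable σ hs), avg_const P' v]
        simp only [this, (hWr (some v)).stable σ hs, sub_zero, le_refl])
      (fun σ _ hs => by
        have a1 : avg P' v (fun z => W z σ) ≤ Psi t σ := by
          calc avg P' v (fun z => W z σ) ≤ avg P' v (fun _ => Psi t σ) :=
                avg_mono P' v (fun z => (hWr z).le σ)
            _ = Psi t σ := avg_const P' v _
        have a2 := (hWr (some v)).nonneg σ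
        linarith) zero_le_one
      (fun σ hS hs => by
        have hv : σ v ≠ Site.asleep := by
          rcases hS with h | h
          · exact h
          · exact absurd h hs
        -- the drift inequality for any active site
        have hdr : ∀ u, 0 < (σ u).act →
            top P lam u (fun τ => W (some v) τ - avg P' v (fun z => W z τ)) σ ≤
              W (some v) σ - avg P' v (fun z => W z σ) := by
          intro u hu
          rw [top_sub, top_avg P P' lam u v W σ]
          have e1 := (hWr (some v)).inv σ u hu
          have e2 : ∀ z, top P lam u (W z) σ =
              W z σ - rew lam x (fun τ => L' (addAt τ z)) u σ := by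
            intro z
            have := (hWr z).inv σ u hu
            linarith
          rw [avg_congr P' v e2, avg_sub]
          have e3 : avg P' v (fun z => rew lam x (fun τ => L' (addAt τ z)) u σ) ≤
              rew lam x (fun τ => L' (addAt τ (some v))) u σ := by
            by_cases hux : u = x
            · simp only [rew, if_pos hux]
              rw [avg_mul]
              apply mul_le_mul_of_nonneg_left _ (by positivity)
              apply fact_one hW ht' k L' hL' v
              rw [remAt_apply]
              split_ifs with h
              · intro h2
                apply hv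
                cases hc : σ v with
                | active j => rw [hc] at h2; simp [Site.rem] at h2
                | asleep => rfl
              · exact hv
            · simp only [rew, if_neg hux]
              rw [avg_const P' v]
          linarith
        have hadd : ∀ s : Site, s.add ≠ Site.asleep := by
          intro s; cases s <;> simp [Site.add]
        by_cases hex : ∃ u, u ≠ v ∧ 0 < (σ u).act
        · obtain ⟨u, huv, hu⟩ := hex
          refine ⟨u, hu, Or.inl ?_, fun z => Or.inl ?_, hdr u hu⟩
          · rw [slpAt_apply, if_neg huv]; exact hv
          · rw [addAt_apply, remAt_apply, if_neg huv]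
            split_ifs
            · exact hadd _
            · exact hv
        · push Not at hex
          obtain ⟨u, hu⟩ := exists_active hs
          have huv : u = v := by
            by_contra h
            exact absurd (hex u h) (by omega)
          subst huv
          obtain ⟨j, hj⟩ := (act_pos_iff _).1 hu
          refine ⟨u, hu, ?_, fun z => Or.inl ?_, hdr u hu⟩
          · by_cases h0 : j = 0
            · right
              intro w
              rw [slpAt_apply]
              split_ifs with h
              · subst h; rw [hj, h0]; simp [Site.slp, Site.act]
              · have := hex w (fun e => h e.symm)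
                omega
            · left
              rw [slpAt_apply, if_pos rfl, hj]
              have : ¬ (j + 1 = 1) := by omega
              simp [Site.slp, h0]
          · rw [addAt_apply, remAt_apply, if_pos rfl, hj]
            split_ifs
            · exact hadd _
            · simp [Site.rem])
      η (Or.inl (hη v))
    linarith
  -- Step C
  have := hm.bal (fun z => W z η) stepB
  have hq : 0 ≤ Q η := by
    simp only [hQ]
    linarith
  linarith

end Pool.Agent.H98.ARW
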