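import Pool.Agent.H98.ARW.Gen

/-! The graph version, and the example with a sleeping particle at the start. -/

set_option autoImplicit false

namespace Pool.Agent.H98.ARW

open Finset Filter
open scoped NNReal

/-- Uniform jumps on a finite directed multigraph: the edge `e` goes from the site `src e` to
`tgt e` (`none` is the sink); a particle of the site `v` jumps along a uniformly chosen edge
among the edges from `v`. -/
noncomputable def graphKer {V E : Type} [Fintype V] [DecidableEq V] [Fintype E]
    (src : E → V) (tgt : E → Option V) (h : ∀ v, ∃ e, src e = v) : Ker V where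
  p := fun v z => ((univ.filter fun e => src e = v ∧ tgt e = z).card : ℝ) /
    ((univ.filter fun e => src e = v).card : ℝ)
  nonneg := fun v z => by positivity
  sum_one := by
    intro v
    rw [← Finset.sum_div]
    have h1 : (∑ z, ((univ.filter fun e => src e = v ∧ tgt e = z).card : ℝ)) =
        ((univ.filter fun e => src e = v).card : ℝ) := by
      rw [Finset.card_eq_sum_card_fiberwise (f := tgt) (t := univ) (fun _ _ => by simp)]
      push_cast
      apply Finset.sum_congr rfl
      intro z _
      rw [Finset.filter_filter]
    rw [h1, div_self]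
    obtain ⟨e, he⟩ := h v
    have : 0 < (univ.filter fun e => src e = v).card := Finset.card_pos.2 ⟨e, by simp [he]⟩
    positivity

theorem graph_le {V E : Type} [Fintype V] [DecidableEq V] [Fintype E] [DecidableEq E]
    (src : E → V) (tgt : E → Option V) (h : ∀ v, ∃ e, src e = v) (D : Finset E) (v w : V) :
    (graphKer src (fun e => if e ∈ D then none else tgt e) h).p v (some w) ≤
      (graphKer src tgt h).p v (some w) := by
  show ((univ.filter fun e => src e = v ∧ (if e ∈ D then none else tgt e) = some w).card : ℝ) /
    ((univ.filter fun e => src e = v).card : ℝ) ≤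
    ((univ.filter fun e => src e = v ∧ tgt e = some w).card : ℝ) /
    ((univ.filter fun e => src e = v).card : ℝ)
  apply div_le_div_of_nonneg_right _ (Nat.cast_nonneg _)
  apply Nat.cast_le.2
  apply Finset.card_le_card
  intro e he
  rw [Finset.mem_filter] at he ⊢
  refine ⟨he.1, he.2.1, ?_⟩
  have h2 := he.2.2
  split_ifs at h2
  exact h2

/-- an example of a sweep: the part `δ` of the jumps from `x` to `y` is passed on at once, by an
additional jump from `y` -/
theorem swept_pass {V : Type} [Fintype V] [DecidableEq V] {P P' : Ker V} {x y : V} (hxy : y ≠ x)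
    {δ : ℝ} (hδ : 0 ≤ δ) (hne : ∀ u, u ≠ x → ∀ z, P'.p u z = P.p u z)
    (hx : ∀ z, P'.p x z = P.p x z + δ * (P.p y z - if z = some y then 1 else 0)) :
    Swept P P' x := by
  refine ⟨hne, fun F hF => ?_⟩
  have h1 := hF y
  have h2 : avg P' y F = avg P y F := by
    unfold avg
    simp only [hne y hxy]
  have h3 : avg P' x F = avg P x F + δ * (avg P y F - F (some y)) := by
    have h4 : ∑ z : Option V, (if z = some y then (1 : ℝ) else 0) * F z = F (some y) := by
      simp
    unfold avg
    rw [← h4, ← Finset.sum_sub_distrib, Finset.mul_sum, ← Finset.sum_add_distrib]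
    apply Finset.sum_congr rfl
    intro z _
    rw [hx]
    ring
  rw [h3]
  nlinarith

/-! ### The example: `false` sleeps, `true` is active -/

/-- the particle of `true` jumps to `false`, the one of `false` to the sink -/
noncomputable def exP : Ker Bool :=
  mk (fun v w => if v = true ∧ w = false then 1 else 0)
    (fun v w => by split_ifs <;> norm_num) (fun v => by cases v <;> simp)

/-- all jumps go to the sink -/
noncomputable def exP' : Ker Bool :=
  mk (fun _ _ => 0) (fun _ _ => le_rfl) (fun _ => by simp)

theorem exP_toSink : ToSink exP := by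
  have h1 : Relation.ReflTransGen (fun a b : Option Bool => ∃ w : Bool, some w = a ∧ 0 < exP.p w b)
      (some false) none := by
    refine Relation.ReflTransGen.single ⟨false, rfl, ?_⟩
    show (0 : ℝ) < 1 - ∑ w : Bool, (if false = true ∧ w = false then (1 : ℝ) else 0)
    simp
  intro v
  cases v with
  | false => exact h1
  | true =>
    refine Relation.ReflTransGen.head ⟨true, rfl, ?_⟩ h1
    show (0 : ℝ) < (if true = true ∧ false = false then (1 : ℝ) else 0)
    simp

theorem exP_le (v w : Bool) : exP'.p v (some w) ≤ exP.p v (some w) := exP.nonneg v (some w)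

/-- one sleeping particle at `false`, one active particle at `true` -/
def exη : Conf Bool := fun v => if v then Site.active 1 else Site.asleep

theorem avg_exP_true (F : Option Bool → ℝ) : avg exP true F = F (some false) := by
  rw [avg_eq]
  have : ∀ w, exP.p true (some w) = if w = false then 1 else 0 := fun w => by
    show (if true = true ∧ w = false then (1 : ℝ) else 0) = _
    simp
  simp only [this]
  simp

theorem avg_exP_false (F : Option Bool → ℝ) : avg exP false F = F none := by
  rw [avg_eq]
  have : ∀ w, exP.p false (some w) = 0 := fun w => by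
    show (if false = true ∧ w = false then (1 : ℝ) else 0) = _
    simp
  simp only [this]
  simp

theorem avg_exP' (v : Bool) (F : Option Bool → ℝ) : avg exP' v F = F none := by
  rw [avg_eq]
  have : ∀ w, exP'.p v (some w) = 0 := fun w => rfl
  simp only [this]
  simp

theorem ex_lt (lam : Bool → ℝ≥0) : probGE exP lam 1 exη < probGE exP' lam 1 exη := by
  obtain ⟨t, ht⟩ := tLyap Bool exP exP_toSink
  have ht' : Lyap exP' t := lyap_le ht exP_le
  have hB := tBellman tComm tDrift
  obtain ⟨L, hL⟩ := exists_val (lam := lam) hB ht (fun σ => 1 ≤ sleepers σ)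
  obtain ⟨L', hL'⟩ := exists_val (lam := lam) hB ht' (fun σ => 1 ≤ sleepers σ)
  rw [probGE_eq ht 1 L hL, probGE_eq ht' 1 L' hL']
  -- stable configurations
  let c : Site → Site → Conf Bool := fun a b v => if v then b else a
  have hcc : ∀ a b a' b', a = a' → b = b' → c a b = c a' b' := by
    rintro a b _ _ rfl rfl; rfl
  have hslpT : ∀ a b, slpAt (c a b) true = c a b.slp := by
    intro a b; funext v; rw [slpAt_apply]; cases v <;> simp [c]
  have hslpF : ∀ a b, slpAt (c a b) false = c a.slp b := by
    intro a b; funext v; rw [slpAt_apply]; cases v <;> simp [c]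
  have hremT : ∀ a b, remAt (c a b) true = c a b.rem := by
    intro a b; funext v; rw [remAt_apply]; cases v <;> simp [c]
  have hremF : ∀ a b, remAt (c a b) false = c a.rem b := by
    intro a b; funext v; rw [remAt_apply]; cases v <;> simp [c]
  have haddF : ∀ a b, addAt (c a b) (some false) = c a.add b := by
    intro a b; funext v; rw [addAt_apply]; cases v <;> simp [c]
  have haddN : ∀ σ : Conf Bool, addAt σ none = σ := fun σ => rfl
  have hst : ∀ a b, a.act = 0 → b.act = 0 → Stable (c a b) := by
    intro a b ha hb v
    cases v
    · simpa [c] using ha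
    · simpa [c] using hb
  have hsl : ∀ b, 1 ≤ sleepers (c Site.asleep b) := by
    intro b
    unfold sleepers
    exact Finset.card_pos.2 ⟨false, by simp [c]⟩
  have hsl0 : ¬ 1 ≤ sleepers (c (Site.active 0) (Site.active 0)) := by
    unfold sleepers
    rw [Nat.not_le, Nat.lt_one_iff, Finset.card_eq_zero, Finset.filter_eq_empty_iff]
    intro v _
    cases v <;> simp [c]
  have hη : exη = c Site.asleep (Site.active 1) := rfl
  have pT : 0 < 1 + (lam true : ℝ) := by positivity
  have pF : 0 < 1 + (lam false : ℝ) := by positivity
  -- the value for `exP'`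
  have v' : L' exη = 1 := by
    have h1 := hL'.inv (c Site.asleep (Site.active 1)) true (by simp [c, Site.act])
    unfold top at h1
    rw [avg_exP', hslpT, hremT, haddN] at h1
    have e1 : c Site.asleep (Site.active 1).slp = c Site.asleep Site.asleep := rfl
    have e2 : c Site.asleep (Site.active 1).rem = c Site.asleep (Site.active 0) := rfl
    have s1 := hL'.stable_one (c Site.asleep Site.asleep) (hst _ _ rfl rfl) (hsl _)
    have s2 := hL'.stable_one (c Site.asleep (Site.active 0)) (hst _ _ rfl rfl) (hsl _)
    rw [e1, e2, s1, s2] at h1
    rw [hη, h1]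
    field_simp
    ring
  -- the value for `exP`
  have v1 : L (c (Site.active 1) (Site.active 0)) = lam false / (1 + lam false) := by
    have h1 := hL.inv (c (Site.active 1) (Site.active 0)) false (by simp [c, Site.act])
    unfold top at h1
    rw [avg_exP_false, hslpF, hremF, haddN] at h1
    have e1 : c (Site.active 1).slp (Site.active 0) = c Site.asleep (Site.active 0) := rfl
    have e2 : c (Site.active 1).rem (Site.active 0) = c (Site.active 0) (Site.active 0) := rfl
    have s1 := hL.stable_one (c Site.asleep (Site.active 0)) (hst _ _ rfl rfl) (hsl _)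
    have s2 := hL.stable_zero (c (Site.active 0) (Site.active 0)) (hst _ _ rfl rfl) hsl0
    rw [e1, e2, s1, s2] at h1
    rw [h1]; ring
  have v2 : L (c (Site.active 2) (Site.active 0)) = lam false / (1 + lam false) := by
    have h1 := hL.inv (c (Site.active 2) (Site.active 0)) false (by simp [c, Site.act])
    unfold top at h1
    rw [avg_exP_false, hslpF, hremF, haddN] at h1
    have e1 : c (Site.active 2).slp (Site.active 0) = c (Site.active 2) (Site.active 0) := rfl
    have e2 : c (Site.active 2).rem (Site.active 0) = c (Site.active 1) (Site.active 0) := rfl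
    rw [e1, e2, v1] at h1
    set X := L (c (Site.active 2) (Site.active 0))
    have h2 : (1 + (lam false : ℝ)) * X = lam false * X + lam false / (1 + lam false) := by
      calc (1 + (lam false : ℝ)) * X = (1 + (lam false : ℝ)) *
            (lam false / (1 + lam false) * X + 1 / (1 + lam false) *
              (lam false / (1 + lam false))) := by rw [← h1]
        _ = _ := by field_simp
    linarith
  have v3 : L exη = lam true / (1 + lam true) + 1 / (1 + lam true) *
      (lam false / (1 + lam false)) := by
    have h1 := hL.inv (c Site.asleep (Site.active 1)) true (by simp [c, Site.act])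
    unfold top at h1
    rw [avg_exP_true, hslpT, hremT, haddF] at h1
    have e0 : c Site.asleep (Site.active 1).slp = c Site.asleep Site.asleep := rfl
    have e1 : c Site.asleep.add (Site.active 1).rem = c (Site.active 2) (Site.active 0) := rfl
    have s1 := hL.stable_one (c Site.asleep Site.asleep) (hst _ _ rfl rfl) (hsl _)
    rw [e0, e1, v2, s1] at h1
    rw [hη, h1]; ring
  rw [v', v3]
  have h5 : (lam false : ℝ) / (1 + lam false) < 1 := by
    rw [div_lt_one pF]; linarith
  have h6 : 1 / (1 + (lam true : ℝ)) * (lam false / (1 + lam false)) < 1 / (1 + lam true) * 1 :=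
    mul_lt_mul_of_pos_left h5 (by positivity)
  have h7 : (lam true : ℝ) / (1 + lam true) + 1 / (1 + lam true) * 1 = 1 := by
    field_simp
    ring
  linarith

end Pool.Agent.H98.ARW
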